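import Pool.Agent.Q212.Kunen

/-!
# `MP_6ed562_lc`: the Rudin-Keisler order and the Comfort order are not isomorphic

*Are the partial orders `(βω/≡_RK, ≤_RK)` and `(βω/≡_C, ≤_C)` order-isomorphic?*

No (in ZFC). Every two ultrafilters `u`, `v` have a least upper bound in the Comfort order, namely
`u ⊗ v`: a space which is both `u`-compact and `v`-compact is `u ⊗ v`-compact.

Two weak P-points `u`, `v` which are incomparable in the Rudin-Keisler order (they exist by Kunen)
have no least upper bound in the Rudin-Keisler order. Suppose that `w` is one, `u = a(w)` and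
`v = b(w)`. Since `w ≤ u ⊗ v` there are ultrafilters `w_x ≤ v` (`x ∈ ω`) such that `w` is the limit
of `w_x` along `u`. So `v` is the limit of `b(w_x)` along `u`, and `u` is the limit of `a(w_x)` along
`u`. As `u` and `v` are weak P-points and incomparable, it follows that for `u`-almost all `x` both
`b(w_x) = v` and `a(w_x)` is principal, in fact concentrated on `x`. Hence `a(p) < b(p)` for
`w_x`-almost all `p`, and so for `w`-almost all `p`. Since `w ≤ v ⊗ u`, also `b(p) < a(p)` for
`w`-almost all `p`, a contradiction.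
-/

set_option autoImplicit false

open Set Filter Topology

namespace Pool.Agent.Results.MP_6ed562_lc.NotIsomorphic

open Pool.Agent.Q212.RK (LE NonPrincipal WeakPPoint tensor mem_tensor tensor_fst fix_mem)

universe v

/-- The Rudin-Keisler preorder: `u` is the image of `v` under some `f : ω → ω`. -/
def RKLE (u v : Ultrafilter ℕ) : Prop := ∃ f : ℕ → ℕ, ∀ S : Set ℕ, S ∈ u ↔ f ⁻¹' S ∈ v

/-- The space `X` is `u`-compact: every sequence in `X` has a `u`-limit in `X`. -/
def UCompact (u : Ultrafilter ℕ) (X : Type v) [TopologicalSpace X] : Prop :=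
  ∀ x : ℕ → X, ∃ l : X, ∀ U ∈ 𝓝 l, {n | x n ∈ U} ∈ u

/-- The Comfort preorder: every `v`-compact Tychonoff space is `u`-compact. -/
def ComfortLE (u w : Ultrafilter ℕ) : Prop :=
  ∀ (X : Type v) [TopologicalSpace X] [T35Space X], UCompact w X → UCompact u X

theorem rkle_iff (u v : Ultrafilter ℕ) : RKLE u v ↔ LE u v := by
  constructor
  · rintro ⟨f, hf⟩
    exact ⟨f, Ultrafilter.ext fun S => hf S⟩
  · rintro ⟨f, rfl⟩
    exact ⟨f, fun S => Iff.rfl⟩

instance : IsPreorder (Ultrafilter ℕ) RKLE where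
  refl _ := ⟨id, fun _ => Iff.rfl⟩
  trans u v w h1 h2 := by
    rw [rkle_iff] at *
    exact h1.trans h2

instance : IsPreorder (Ultrafilter ℕ) ComfortLE.{v} where
  refl _ := fun _ _ _ h => h
  trans _ _ _ h1 h2 := fun X _ _ h => h1 X (h2 X h)

/-- The order of the equivalence classes of a preorder `r` on the set of ultrafilters: `a ≤ b` if
`r u v` for some elements `u` of `a` and `v` of `b`. -/
def ClassLE (r : Ultrafilter ℕ → Ultrafilter ℕ → Prop) [IsPreorder (Ultrafilter ℕ) r]
    (a b : Antisymmetrization (Ultrafilter ℕ) r) : Prop :=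
  ∃ u v, toAntisymmetrization r u = a ∧ toAntisymmetrization r v = b ∧ r u v

theorem classLE_iff (r : Ultrafilter ℕ → Ultrafilter ℕ → Prop) [IsPreorder (Ultrafilter ℕ) r]
    (u v : Ultrafilter ℕ) :
    ClassLE r (toAntisymmetrization r u) (toAntisymmetrization r v) ↔ r u v := by
  constructor
  · rintro ⟨u', v', h1, h2, h3⟩
    have e1 : AntisymmRel r u' u := Quotient.exact h1
    have e2 : AntisymmRel r v' v := Quotient.exact h2
    exact _root_.trans e1.2 (_root_.trans h3 e2.1)
  · intro h
    exact ⟨u, v, rfl, rfl, h⟩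

theorem comfortLE_of_le {u w : Ultrafilter ℕ} (h : LE u w) : ComfortLE.{v} u w := by
  obtain ⟨f, rfl⟩ := h
  intro X _ _ hX x
  obtain ⟨l, hl⟩ := hX (fun n => x (f n))
  exact ⟨l, fun U hU => hl U hU⟩

/-- The product as an ultrafilter on `ω`. -/
def prod (u v : Ultrafilter ℕ) : Ultrafilter ℕ := (tensor u v).map (fun p => Nat.pair p.1 p.2)

theorem mem_prod (u v : Ultrafilter ℕ) (A : Set ℕ) :
    A ∈ prod u v ↔ {x | {y | Nat.pair x y ∈ A} ∈ v} ∈ u := Iff.rfl

theorem le_prod_left (u v : Ultrafilter ℕ) : LE u (prod u v) := by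
  refine ⟨fun n => n.unpair.1, Ultrafilter.ext fun A => ?_⟩
  rw [Ultrafilter.mem_map, mem_prod]
  simp only [mem_preimage, Nat.unpair_pair]
  constructor
  · intro h
    filter_upwards [h] with x hx
    exact Filter.mem_of_superset Filter.univ_mem fun _ _ => hx
  · intro h
    filter_upwards [h] with x hx
    obtain ⟨y, hy⟩ := Ultrafilter.nonempty_of_mem hx
    exact hy

theorem le_prod_right (u v : Ultrafilter ℕ) : LE v (prod u v) := by
  refine ⟨fun n => n.unpair.2, Ultrafilter.ext fun A => ?_⟩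
  rw [Ultrafilter.mem_map, mem_prod]
  simp only [mem_preimage, Nat.unpair_pair]
  constructor
  · intro h
    exact Filter.mem_of_superset Filter.univ_mem fun _ _ => h
  · intro h
    obtain ⟨x, hx⟩ := Ultrafilter.nonempty_of_mem h
    exact hx

/-- The product is a least upper bound in the Comfort order. -/
theorem prod_compact {u v : Ultrafilter ℕ} {X : Type v} [TopologicalSpace X]
    (hu : UCompact u X) (hv : UCompact v X) : UCompact (prod u v) X := by
  intro x
  choose l hl using fun n => hv (fun m => x (Nat.pair n m))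
  obtain ⟨l', hl'⟩ := hu l
  refine ⟨l', fun U hU => ?_⟩
  obtain ⟨V, hVU, hV, hlV⟩ := mem_nhds_iff.mp hU
  have h1 := hl' V (hV.mem_nhds hlV)
  change {n | {m | x (Nat.pair n m) ∈ U} ∈ v} ∈ u
  filter_upwards [h1] with n hn
  filter_upwards [hl n V (hV.mem_nhds hn)] with m hm
  exact hVU hm

/-- If `w = f(u ⊗ v)`, `u = a(w)` and `v = b(w)` where `u`, `v` are incomparable weak P-points, then
`a(p) < b(p)` for `w`-almost all `p`. -/
theorem key {u v w : Ultrafilter ℕ} (hu : WeakPPoint u) (hv : WeakPPoint v)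
    (h1 : ¬ LE u v) (h2 : ¬ LE v u) (hw : LE w (tensor u v)) (a b : ℕ → ℕ)
    (ha : u = w.map a) (hb : v = w.map b) : {p | a p < b p} ∈ w := by
  obtain ⟨f, hf⟩ := hw
  let m : ℕ → Ultrafilter ℕ := fun x => v.map (fun y => f (x, y))
  have hm : ∀ A : Set ℕ, A ∈ w ↔ {x | A ∈ m x} ∈ u := by
    intro A
    rw [hf]
    exact Iff.rfl
  have hbm : {x | (m x).map b = v} ∈ u := by
    rcases hv.limit u (fun x => (m x).map b) (fun A => by
      conv_lhs => rw [hb]
      exact hm (b ⁻¹' A)) with h | ⟨g, _, hg⟩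
    · exact h
    · exact absurd ⟨g, hg⟩ h2
  have ham : {x | (m x).map a = pure x} ∈ u := by
    rcases hu.limit u (fun x => (m x).map a) (fun A => by
      conv_lhs => rw [ha]
      exact hm (a ⁻¹' A)) with h | ⟨g, hg1, hg2⟩
    · exfalso
      obtain ⟨x, hx⟩ := Ultrafilter.nonempty_of_mem h
      refine h1 ⟨fun y => a (f (x, y)), ?_⟩
      have h3 : (m x).map a = u := hx
      rw [← h3]
      rfl
    · have h3 := fix_mem u g hg2.symm
      filter_upwards [h3, hg1] with x hx1 hx2
      rw [hx2, show g x = x from hx1]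
  rw [hm]
  filter_upwards [hbm, ham] with x hx1 hx2
  have h3 : {k | k = x} ∈ (m x).map a := by
    rw [hx2, Ultrafilter.mem_pure]
    rfl
  have h4 : {k | x < k} ∈ (m x).map b := by
    rw [hx1]
    exact hv.1.gt_mem x
  filter_upwards [h3, h4] with p hp1 hp2
  have e1 : a p = x := hp1
  change a p < b p
  rw [e1]
  exact hp2

/-- Incomparable weak P-points have no least upper bound in the Rudin-Keisler order. -/
theorem no_lub {u v : Ultrafilter ℕ} (hu : WeakPPoint u) (hv : WeakPPoint v)
    (h1 : ¬ LE u v) (h2 : ¬ LE v u) (w : Ultrafilter ℕ) (hw1 : LE u w) (hw2 : LE v w)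
    (hw : ∀ z : Ultrafilter ℕ, LE u z → LE v z → LE w z) : False := by
  obtain ⟨a, ha⟩ := hw1
  obtain ⟨b, hb⟩ := hw2
  have e1 : LE w (tensor u v) :=
    (hw _ (le_prod_left u v) (le_prod_right u v)).trans ⟨_, rfl⟩
  have e2 : LE w (tensor v u) :=
    (hw _ (le_prod_right v u) (le_prod_left v u)).trans ⟨_, rfl⟩
  have e3 := key hu hv h1 h2 e1 a b ha hb
  have e4 := key hv hu h2 h1 e2 b a hb ha
  obtain ⟨p, hp1, hp2⟩ := Ultrafilter.nonempty_of_mem (Filter.inter_mem e3 e4)
  exact lt_asymm (show a p < b p from hp1) hp2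

/-- **Main theorem.** The partial orders of the equivalence classes of ultrafilters on `ω` with
respect to the Rudin-Keisler preorder and to the Comfort preorder are not isomorphic. -/
theorem result : ¬ ∃ Φ : Antisymmetrization (Ultrafilter ℕ) RKLE ≃
    Antisymmetrization (Ultrafilter ℕ) ComfortLE.{v},
    ∀ a b, ClassLE RKLE a b ↔ ClassLE ComfortLE.{v} (Φ a) (Φ b) := by
  rintro ⟨Φ, hΦ⟩
  -- two incomparable weak P-points
  obtain ⟨p, hp⟩ : ∃ p : Ultrafilter ℕ, NonPrincipal p := by
    refine ⟨hyperfilter ℕ, fun n hn => ?_⟩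
    have h1 : ({n}ᶜ : Set ℕ) ∈ hyperfilter ℕ :=
      Filter.mem_hyperfilter_of_finite_compl (by rw [compl_compl]; exact finite_singleton n)
    rw [hn, Ultrafilter.mem_pure] at h1
    exact h1 rfl
  obtain ⟨t, ht1, _, ht3⟩ := Pool.Agent.Q212.Kunen.exists_weakPPoints Bool (fun _ => p)
    (fun _ => hp)
  have hu := ht1 true
  have hv := ht1 false
  have h1 : ¬ LE (t true) (t false) := ht3 false true (by decide)
  have h2 : ¬ LE (t false) (t true) := ht3 true false (by decide)
  generalize t true = u at hu h1 h2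
  generalize t false = v at hv h1 h2
  let c : Ultrafilter ℕ → Antisymmetrization (Ultrafilter ℕ) ComfortLE.{v} :=
    toAntisymmetrization ComfortLE.{v}
  have hrep : ∀ a, ∃ x, c x = a := fun a => Quotient.exists_rep a
  have hrep' : ∀ a, ∃ x, toAntisymmetrization RKLE x = a := fun a => Quotient.exists_rep a
  obtain ⟨u', hu'⟩ := hrep (Φ (toAntisymmetrization RKLE u))
  obtain ⟨v', hv'⟩ := hrep (Φ (toAntisymmetrization RKLE v))
  obtain ⟨w, hw⟩ := hrep' (Φ.symm (c (prod u' v')))
  have hw' : Φ (toAntisymmetrization RKLE w) = c (prod u' v') := by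
    rw [hw, Equiv.apply_symm_apply]
  have hle : ∀ {x y : Ultrafilter ℕ} {x' y' : Ultrafilter ℕ},
      Φ (toAntisymmetrization RKLE x) = c x' → Φ (toAntisymmetrization RKLE y) = c y' →
      (LE x y ↔ ComfortLE.{v} x' y') := by
    intro x y x' y' hx hy
    rw [← rkle_iff, ← classLE_iff RKLE, hΦ, hx, hy]
    exact classLE_iff ComfortLE.{v} x' y'
  refine no_lub hu hv h1 h2 w ?_ ?_ ?_
  · exact (hle hu'.symm hw').mpr (comfortLE_of_le (le_prod_left u' v'))
  · exact (hle hv'.symm hw').mpr (comfortLE_of_le (le_prod_right u' v'))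
  · intro z hz1 hz2
    obtain ⟨z', hz'⟩ := hrep (Φ (toAntisymmetrization RKLE z))
    rw [hle hu'.symm hz'.symm] at hz1
    rw [hle hv'.symm hz'.symm] at hz2
    rw [hle hw' hz'.symm]
    intro X _ _ hX
    exact prod_compact (hz1 X hX) (hz2 X hX)

end Pool.Agent.Results.MP_6ed562_lc.NotIsomorphic
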